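import Pool.Agent.R348.PO.Neg

/-!
# A simplex with `σ`-compact extreme boundary whose maximal measure map is not of Baire class one

Definitions are in `Pool/Agent/R348/PO/Choquet.lean`: Radon probabilities `M1`, the weak* topology,
continuous convex and affine functions, the Choquet order, maximal and representing measures,
simplices, the class `C₁`, `K`-analytic and `F_σ` sets.
-/

open Pool.Agent.R348.PO

namespace Pool.Agent.Results.MP_ee811a_an.SigmaCompactBoundary

/-- There are a real Hausdorff locally convex space `V` and a nonempty compact convex `X ⊆ V` which is a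
simplex, whose set of extreme points is `K`-analytic and `F_σ` (even a countable union of compact
sets), and such that the map `T` sending `x` to the maximal measure representing `x` is not the
pointwise limit of any sequence of continuous maps `X → M¹(X)`. -/
theorem result :
    ∃ (V : Type) (_ : AddCommGroup V) (_ : Module ℝ V) (_ : TopologicalSpace V)
      (_ : IsTopologicalAddGroup V) (_ : ContinuousSMul ℝ V) (_ : LocallyConvexSpace ℝ V)
      (_ : T2Space V) (X : Set V),
      X.Nonempty ∧ IsCompact X ∧ Convex ℝ X ∧ IsSimplex X ∧
      IsKAnalytic (X.extremePoints ℝ) ∧ IsFsigma (X.extremePoints ℝ) ∧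
      (∃ C : ℕ → Set V, (∀ n, IsCompact (C n)) ∧ ⋃ n, C n = X.extremePoints ℝ) ∧
      ∀ T : X → M1 X, (∀ x, IsMaximalM (T x) ∧ Represents (T x) x) → ¬ InC1 T := by
  obtain ⟨C, hC, hCe⟩ := ext_compacts (N := List Bool) (R := Pre) pre_AD
  refine ⟨VV (List Bool) (ℕ → Bool), inferInstance, inferInstance, inferInstance, inferInstance,
    inferInstance, inferInstance, inferInstance, XX Pre, ⟨0, zero_mem⟩, isCompact_XX, convex_XX,
    isSimplex_XX pre_AD, ?_, ⟨C, fun n => (hC n).isClosed, hCe⟩, ⟨C, hC, hCe⟩, ?_⟩
  · rw [← hCe]
    exact isKAnalytic_of_compacts C hC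
  · exact not_InC1 pre_AD pre_seq

end Pool.Agent.Results.MP_ee811a_an.SigmaCompactBoundary
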